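import Pool.Agent.H70.SL2

namespace Pool.Agent.Results.MP_669787_al.Counterexample

open Pool.Agent.H70.SL

theorem result : ∃ (A : Type) (_ : Ring A) (φ : RingAut A) (R : Type) (_ : Ring R)
    (e : R ≃+ HahnSeries ℤ A), IsSL φ e ∧ IsSemisimpleRing (R ⧸ Ring.jacobson R) ∧
      IsArtinianRing (R ⧸ Ring.jacobson R) ∧ ∃ a ∈ Ring.jacobson A, ¬ IsNilpotent a :=
  main

end Pool.Agent.Results.MP_669787_al.Counterexample
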